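import Pool.Agent.Lib.MP_7e554c_an.CZ.Mat

/-! The value 5/4 is reached only when the numerical range is a disc. -/

open Metric Pool.Agent.Lib.MP_7e554c_an.CZ

namespace Pool.Agent.Results.MP_7e554c_an.EqualityCase

theorem result (n : ℕ) (A : Matrix (Fin n) (Fin n) ℂ) (U : Set ℂ) (f : ℂ → ℂ) (hU : IsOpen U)
    (hW : numRange A ⊆ U) (hf : DifferentiableOn ℂ f U) (h1 : ∀ z ∈ numRange A, ‖f z‖ ≤ 1) :
    (∃! B, IsValue U f A B) ∧ ∀ B, IsValue U f A B → ∀ w ∈ numRange B, ‖w‖ = 5 / 4 →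
      ∃ (m : ℂ) (r : ℝ), 0 < r ∧ numRange A = closedBall m r ∧ ‖f m‖ = 1 / 2 ∧
        ∀ z ∈ sphere m r, ‖f z‖ = 1 :=
  ⟨value_unique hU hW hf, fun _ h _ hw e => (rad_mat hU hW h1 h hw).2 e⟩

/-- The same for the operator norm. -/
theorem norm_case (n : ℕ) (A B : Matrix (Fin n) (Fin n) ℂ) (U : Set ℂ) (f : ℂ → ℂ) (hU : IsOpen U)
    (hW : numRange A ⊆ U) (h1 : ∀ z ∈ numRange A, ‖f z‖ ≤ 1) (h : IsValue U f A B)
    (h2 : ‖Matrix.toEuclideanCLM (n := Fin n) (𝕜 := ℂ) B‖ = 2) :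
    ∃ (m : ℂ) (r : ℝ), 0 < r ∧
      numRange A = closedBall m r ∧ ‖f m‖ = 0 ∧ ∀ z ∈ sphere m r, ‖f z‖ = 1 :=
  (norm_mat hU hW h1 h).2 h2

end Pool.Agent.Results.MP_7e554c_an.EqualityCase
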